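import Pool.Agent.W2helper3.BQ.Stm3

/-! BQ3 piece KC -/

set_option autoImplicit false

open MeasureTheory Set Filter Topology
open scoped BigOperators

namespace Pool.Agent.W2helper35.BQ

open Pool.Agent.W2helper3.BQ

theorem young (q a lam : ℝ) (hq : 2 ≤ q) (ha : 0 ≤ a) (hl : 0 < lam) :
    a ≤ lam + lam ^ (1 - q) * a ^ q := by
  by_cases h : a ≤ lam
  · have : 0 ≤ lam ^ (1 - q) * a ^ q := by positivity
    linarith
  · have ha' : 0 < a := hl.trans (not_le.1 h)
    have h1 : a ^ (1 - q) ≤ lam ^ (1 - q) :=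
      Real.rpow_le_rpow_of_nonpos hl (not_le.1 h).le (by linarith)
    have h2 : a = a ^ (1 - q) * a ^ q := by
      rw [← Real.rpow_add ha']
      simp
    have h3 : a ^ (1 - q) * a ^ q ≤ lam ^ (1 - q) * a ^ q :=
      mul_le_mul_of_nonneg_right h1 (by positivity)
    linarith

theorem two_pi_pos' : (0 : ℝ) < 2 * Real.pi := by positivity

theorem av_mono {f g : ℝ → ℝ} (hf : Continuous f) (hg : Continuous g) (h : ∀ s, f s ≤ g s) :
    av f ≤ av g := by
  unfold av
  apply mul_le_mul_of_nonneg_left _ (by positivity)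
  exact intervalIntegral.integral_mono two_pi_pos'.le (hf.intervalIntegrable _ _)
    (hg.intervalIntegrable _ _) h

theorem av_const_mul (c : ℝ) (f : ℝ → ℝ) : (av fun s => c * f s) = c * av f := by
  unfold av
  rw [intervalIntegral.integral_const_mul]
  ring

theorem av_const (c : ℝ) : (av fun _ => c) = c := by
  unfold av
  rw [intervalIntegral.integral_const]
  have := two_pi_pos'.ne'
  simp only [sub_zero, smul_eq_mul]
  field_simp

theorem av_add {f g : ℝ → ℝ} (hf : Continuous f) (hg : Continuous g) :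
    (av fun s => f s + g s) = av f + av g := by
  unfold av
  rw [intervalIntegral.integral_add (hf.intervalIntegrable _ _) (hg.intervalIntegrable _ _)]
  ring

theorem av_nonneg {f : ℝ → ℝ} (h : ∀ s, 0 ≤ f s) : 0 ≤ av f := by
  unfold av
  exact mul_nonneg (by positivity) (intervalIntegral.integral_nonneg two_pi_pos'.le fun s _ => h s)

theorem norm_avc_le (f : ℝ → ℂ) : ‖avc f‖ ≤ av fun s => ‖f s‖ := by
  unfold avc av
  rw [norm_mul, Complex.norm_real, Real.norm_of_nonneg (by positivity)]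
  apply mul_le_mul_of_nonneg_left _ (by positivity)
  exact intervalIntegral.norm_integral_le_integral_norm two_pi_pos'.le

theorem continuous_avc {f : ℝ → ℝ → ℂ} (hf : Continuous (Function.uncurry f)) :
    Continuous fun v => avc (f v) := by
  unfold avc
  exact continuous_const.mul
    (intervalIntegral.continuous_parametric_intervalIntegral_of_continuous' hf _ _)

theorem continuous_av {f : ℝ → ℝ → ℝ} (hf : Continuous (Function.uncurry f)) :
    Continuous fun v => av (f v) := by
  unfold av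
  exact continuous_const.mul
    (intervalIntegral.continuous_parametric_intervalIntegral_of_continuous' hf _ _)

theorem avc_zero : (avc fun _ => (0 : ℂ)) = 0 := by
  unfold avc
  simp

theorem integrable_of_supp {E : Type*} [NormedAddCommGroup E] {f : ℝ → E} (hf : Continuous f)
    (R : ℝ) (h : ∀ v, R ≤ |v| → f v = 0) : Integrable f := by
  apply hf.integrable_of_hasCompactSupport
  apply HasCompactSupport.of_support_subset_isCompact (isCompact_Icc (a := -R) (b := R))
  intro v hv
  by_contra hcon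
  apply hv
  apply h
  rw [mem_Icc, ← abs_le] at hcon
  exact (not_le.1 hcon).le

theorem continuous_kap (n l : ℕ) : Continuous (kap n l) := by
  unfold kap
  fun_prop

theorem continuous_mk (v : ℝ) (hv : 0 < v) (t : ℝ) : Continuous fun s => W2helper3.BQ.mk v (t - s) := by
  unfold W2helper3.BQ.mk
  refine Continuous.div (by fun_prop) (by fun_prop) ?_
  intro s
  have h1 : ‖Complex.exp (-(v / 2 : ℝ) + ((t - s : ℝ) : ℂ) * Complex.I)‖ = Real.exp (-(v / 2)) := by
    rw [Complex.norm_exp]
    congr 1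
    simp
  have h2 : Real.exp (-(v / 2)) < 1 := by
    rw [Real.exp_lt_one_iff]
    linarith
  intro h0
  have h3 : (1 : ℂ) = Complex.exp (-(v / 2 : ℝ) + ((t - s : ℝ) : ℂ) * Complex.I) := by
    have : ‖1 - Complex.exp (-(v / 2 : ℝ) + ((t - s : ℝ) : ℂ) * Complex.I)‖ = 0 := by
      simpa using h0
    exact sub_eq_zero.1 (norm_eq_zero.1 this)
  rw [← h3] at h1
  simp at h1
  linarith

theorem mk_nonneg (v τ : ℝ) : 0 ≤ W2helper3.BQ.mk v τ := by
  unfold W2helper3.BQ.mk
  positivity

theorem mk_le (v τ ε : ℝ) (hε : 0 < ε) (hε1 : ε ≤ 1) (hv : ε ≤ v) :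
    W2helper3.BQ.mk v τ ≤ 16 * (1 / ε) ^ 2 * Real.exp (-(v / 2)) := by
  unfold W2helper3.BQ.mk
  have h1 : ‖Complex.exp (-(v / 2 : ℝ) + (τ : ℂ) * Complex.I)‖ = Real.exp (-(v / 2)) := by
    rw [Complex.norm_exp]
    congr 1
    simp
  have h2 : Real.exp (-(v / 2)) ≤ Real.exp (-(ε / 2)) := by
    apply Real.exp_le_exp.2
    linarith
  have h3 : ε / 4 ≤ 1 - Real.exp (-(ε / 2)) := by
    have h1 : 1 + ε / 2 ≤ Real.exp (ε / 2) := by
      have := Real.add_one_le_exp (ε / 2)
      linarith
    have h2 : Real.exp (-(ε / 2)) * Real.exp (ε / 2) = 1 := by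
      rw [← Real.exp_add]; simp
    have h0 := Real.exp_pos (-(ε / 2))
    nlinarith
  have h4 : ε / 4 ≤ ‖1 - Complex.exp (-(v / 2 : ℝ) + (τ : ℂ) * Complex.I)‖ := by
    have := norm_sub_norm_le (1 : ℂ) (Complex.exp (-(v / 2 : ℝ) + (τ : ℂ) * Complex.I))
    rw [h1, norm_one] at this
    linarith
  have h5 : (ε / 4) ^ 2 ≤ ‖1 - Complex.exp (-(v / 2 : ℝ) + (τ : ℂ) * Complex.I)‖ ^ 2 :=
    pow_le_pow_left₀ (by positivity) h4 2
  calc Real.exp (-(v / 2)) / ‖1 - Complex.exp (-(v / 2 : ℝ) + (τ : ℂ) * Complex.I)‖ ^ 2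
      ≤ Real.exp (-(v / 2)) / (ε / 4) ^ 2 := by
        apply div_le_div_of_nonneg_left (Real.exp_pos _).le (by positivity) h5
    _ = 16 * (1 / ε) ^ 2 * Real.exp (-(v / 2)) := by
        field_simp
        norm_num

/-- the two estimates with a parameter `N' > N` -/
theorem core (n : ℕ) (C₀ C₁ q : ℝ) (L : ℕ) (t : ℝ) (hC₀ : 1 ≤ C₀) (hC₁ : 1 ≤ C₁) (hq : 2 ≤ q)
    (hL : Real.log (L + 1) ≤ q)
    (hMASS : P_MASS) (g : ℝ → ℝ → ℂ) (G : ℝ → ℂ) (R : ℝ) (hG : Continuous G)
    (hg : Continuous (Function.uncurry g))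
    (hgR : ∀ v, R ≤ |v| → ∀ s, g v s = 0) (hGR : ∀ v, R ≤ |v| → G v = 0)
    (hA : ∀ v, 0 < v → ‖G v‖ ≤ C₀ * ((L : ℝ) + 1) ^ (n + 1) * av fun s => ‖g v s‖)
    (hB : ∀ v, 0 < v → ‖G v‖ ≤ C₁ * av fun s => W2helper3.BQ.mk v (t - s) * ‖g v s‖)
    (N' : ℝ) (hN'0 : 0 < N')
    (hN' : ∫ v in Ioi (0 : ℝ), Real.exp (-(v / 4)) * (av fun s => ‖g v s‖ ^ q) ≤ N') :
    ∫ v in Ioi (0 : ℝ), ‖G v‖ ≤
      (3 * C₀ * Real.exp (n + 1) + C₁ * (n + 4) * Real.exp (2 * n + 4)) * q * N' ^ (1 / q) := by
  have hq0 : 0 < q := by linarith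
  set E : ℝ := ((L : ℝ) + 1) ^ (n + 1) with hE
  have hL1 : (1 : ℝ) ≤ (L : ℝ) + 1 := by
    have : (0 : ℝ) ≤ L := Nat.cast_nonneg L
    linarith
  have hE1 : 1 ≤ E := one_le_pow₀ hL1
  have hE0 : 0 < E := by linarith
  have hlogE : Real.log E = (n + 1) * Real.log ((L : ℝ) + 1) := by
    rw [hE, Real.log_pow]
    push_cast
    ring
  have hlogL : 0 ≤ Real.log ((L : ℝ) + 1) := Real.log_nonneg hL1
  have hn0 : (0 : ℝ) ≤ n := Nat.cast_nonneg n
  have hlogE' : Real.log E ≤ (n + 1) * q := by
    rw [hlogE]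
    exact mul_le_mul_of_nonneg_left hL (by positivity)
  set ε : ℝ := 1 / E with hε
  have hε0 : 0 < ε := by positivity
  have hε1 : ε ≤ 1 := by
    rw [hε, div_le_one hE0]
    exact hE1
  -- the function `H`
  set Q : ℝ → ℝ := fun v => av fun s => ‖g v s‖ ^ q with hQ
  have hgv : ∀ v, Continuous (g v) := fun v => by
    have : g v = (Function.uncurry g) ∘ (fun s => (v, s)) := rfl
    rw [this]
    exact hg.comp (by fun_prop)
  have hQc : Continuous Q := by
    apply continuous_av
    exact (hg.norm).rpow_const (fun _ => Or.inr hq0.le)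
  have hQ0 : ∀ v, 0 ≤ Q v := fun v => av_nonneg fun s => by positivity
  have hQR : ∀ v, R ≤ |v| → Q v = 0 := by
    intro v hv
    have : (fun s => ‖g v s‖ ^ q) = fun _ => (0 : ℝ) := by
      funext s
      rw [hgR v hv s, norm_zero, Real.zero_rpow hq0.ne']
    show av (fun s => ‖g v s‖ ^ q) = 0
    rw [this, av_const]
  have hHc : Continuous fun v => Real.exp (-(v / 4)) * Q v := by fun_prop
  have hHi : Integrable fun v => Real.exp (-(v / 4)) * Q v :=
    integrable_of_supp hHc R fun v hv => by rw [hQR v hv, mul_zero]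
  have hH0 : ∀ v, 0 ≤ Real.exp (-(v / 4)) * Q v := fun v => mul_nonneg (Real.exp_pos _).le (hQ0 v)
  have hGi : Integrable fun v => ‖G v‖ :=
    (integrable_of_supp hG R hGR).norm
  have hsub : ∀ s : Set ℝ, MeasurableSet s → s ⊆ Ioi 0 →
      ∫ v in s, Real.exp (-(v / 4)) * Q v ≤ N' := by
    intro s hs hs0
    refine le_trans ?_ hN'
    exact setIntegral_mono_set hHi.integrableOn (Eventually.of_forall hH0)
      (Eventually.of_forall hs0)
  -- Young in the average
  have hY : ∀ v lam : ℝ, 0 < lam → (av fun s => ‖g v s‖) ≤ lam + lam ^ (1 - q) * Q v := by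
    intro v lam hlam
    have h1 : (av fun s => ‖g v s‖) ≤ av fun s => (lam + lam ^ (1 - q) * ‖g v s‖ ^ q) :=
      av_mono (hgv v).norm (continuous_const.add (continuous_const.mul
        ((hgv v).norm.rpow_const fun _ => Or.inr hq0.le)))
        (fun s => young q _ lam hq (norm_nonneg _) hlam)
    have e2 := av_add (f := fun _ => lam) (g := fun s => lam ^ (1 - q) * ‖g v s‖ ^ q)
      continuous_const (continuous_const.mul ((hgv v).norm.rpow_const fun _ => Or.inr hq0.le))
    rw [av_const, av_const_mul (lam ^ (1 - q))] at e2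
    exact h1.trans_eq e2
  -- part A
  have hPA : ∫ v in Ioc 0 ε, ‖G v‖ ≤ 3 * C₀ * Real.exp (n + 1) * N' ^ (1 / q) := by
    set lam : ℝ := (N' * E) ^ (1 / q) with hlam
    have hlam0 : 0 < lam := by positivity
    have hlamq : lam ^ q = N' * E := by
      rw [hlam, ← Real.rpow_mul (by positivity)]
      rw [one_div, inv_mul_cancel₀ hq0.ne', Real.rpow_one]
    have hlam2 : lam ^ (1 - q) * (N' * E) = lam := by
      rw [← hlamq, ← Real.rpow_add hlam0]
      simp
    have hpt : ∀ v ∈ Ioc 0 ε, ‖G v‖ ≤ C₀ * E * lam +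
        C₀ * E * lam ^ (1 - q) * 2 * (Real.exp (-(v / 4)) * Q v) := by
      intro v hv
      have h1 := hA v hv.1
      have h2 := hY v lam hlam0
      have h3 : 1 ≤ 2 * Real.exp (-(v / 4)) := by
        have h4 : -(v / 4) + 1 ≤ Real.exp (-(v / 4)) := Real.add_one_le_exp _
        have : v ≤ 1 := hv.2.trans hε1
        linarith
      have h5 : Q v ≤ 2 * (Real.exp (-(v / 4)) * Q v) := by
        have := mul_le_mul_of_nonneg_right h3 (hQ0 v)
        linarith
      have h6 : 0 ≤ lam ^ (1 - q) := by positivity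
      calc ‖G v‖ ≤ C₀ * E * av fun s => ‖g v s‖ := h1
        _ ≤ C₀ * E * (lam + lam ^ (1 - q) * Q v) :=
          mul_le_mul_of_nonneg_left h2 (by positivity)
        _ ≤ C₀ * E * (lam + lam ^ (1 - q) * (2 * (Real.exp (-(v / 4)) * Q v))) := by
          apply mul_le_mul_of_nonneg_left _ (by positivity)
          have := mul_le_mul_of_nonneg_left h5 h6
          linarith
        _ = _ := by ring
    have hi1 : IntegrableOn (fun _ : ℝ => C₀ * E * lam) (Ioc 0 ε) :=
      continuous_const.integrableOn_Ioc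
    have hi2 : IntegrableOn (fun v => C₀ * E * lam ^ (1 - q) * 2 * (Real.exp (-(v / 4)) * Q v))
        (Ioc 0 ε) := (hHi.const_mul _).integrableOn
    have h1 := setIntegral_mono_on hGi.integrableOn (hi1.add hi2) measurableSet_Ioc hpt
    refine h1.trans ?_
    have h2 : ∫ v in Ioc 0 ε, ((fun _ : ℝ => C₀ * E * lam) + fun v =>
        C₀ * E * lam ^ (1 - q) * 2 * (Real.exp (-(v / 4)) * Q v)) v =
        C₀ * lam + C₀ * E * lam ^ (1 - q) * 2 * ∫ v in Ioc 0 ε, Real.exp (-(v / 4)) * Q v := by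
      have e1 := integral_add hi1 hi2
      have e2 : ∫ v in Ioc 0 ε, C₀ * E * lam ^ (1 - q) * 2 * (Real.exp (-(v / 4)) * Q v) =
          C₀ * E * lam ^ (1 - q) * 2 * ∫ v in Ioc 0 ε, Real.exp (-(v / 4)) * Q v :=
        integral_const_mul _ _
      have e3 : ∫ _v in Ioc (0 : ℝ) ε, C₀ * E * lam = C₀ * lam := by
        rw [setIntegral_const]
        simp only [Real.volume_real_Ioc, sub_zero, smul_eq_mul]
        rw [max_eq_left hε0.le, hε]
        field_simp
      rw [e2, e3] at e1
      exact e1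
    rw [h2]
    have h3 := hsub (Ioc 0 ε) measurableSet_Ioc (fun v hv => hv.1)
    have h4 : C₀ * E * lam ^ (1 - q) * 2 * (∫ v in Ioc 0 ε, Real.exp (-(v / 4)) * Q v) ≤
        C₀ * E * lam ^ (1 - q) * 2 * N' := mul_le_mul_of_nonneg_left h3 (by positivity)
    have h5 : C₀ * E * lam ^ (1 - q) * 2 * N' = 2 * C₀ * lam := by
      calc C₀ * E * lam ^ (1 - q) * 2 * N' = 2 * C₀ * (lam ^ (1 - q) * (N' * E)) := by ring
        _ = 2 * C₀ * lam := by rw [hlam2]
    have h6 : lam ≤ Real.exp (n + 1) * N' ^ (1 / q) := by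
      rw [hlam, Real.mul_rpow hN'0.le hE0.le, mul_comm]
      apply mul_le_mul_of_nonneg_right _ (by positivity)
      rw [Real.rpow_def_of_pos hE0]
      apply Real.exp_le_exp.2
      rw [mul_one_div, div_le_iff₀ hq0]
      exact hlogE'
    have h7 : 3 * C₀ * lam ≤ 3 * C₀ * (Real.exp (n + 1) * N' ^ (1 / q)) :=
      mul_le_mul_of_nonneg_left h6 (by positivity)
    linarith
  have hPB : ∫ v in Ioi ε, ‖G v‖ ≤ C₁ * (n + 4) * Real.exp (2 * n + 4) * q * N' ^ (1 / q) := by
    set K : ℝ := 16 * (1 / ε) ^ 2 with hK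
    have hKE : K = (4 * E) ^ 2 := by
      rw [hK, hε]
      field_simp
      norm_num
    have hK0 : 0 < K := by positivity
    set lam : ℝ := (K * N') ^ (1 / q) with hlam
    have hlam0 : 0 < lam := by positivity
    have hlamq : lam ^ q = K * N' := by
      rw [hlam, ← Real.rpow_mul (by positivity)]
      rw [one_div, inv_mul_cancel₀ hq0.ne', Real.rpow_one]
    have hlam2 : lam ^ (1 - q) * (K * N') = lam := by
      rw [← hlamq, ← Real.rpow_add hlam0]
      simp
    obtain ⟨hmi, hm⟩ := hMASS ε t hε0 hε1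
    have hpt : ∀ v ∈ Ioi ε, ‖G v‖ ≤ C₁ * lam * (av fun s => W2helper3.BQ.mk v (t - s)) +
        C₁ * lam ^ (1 - q) * K * (Real.exp (-(v / 4)) * Q v) := by
      intro v hv
      have hv0 : 0 < v := hε0.trans hv
      have h1 := hB v hv0
      have hcm := continuous_mk v hv0 t
      have hcq : Continuous fun s => ‖g v s‖ ^ q := (hgv v).norm.rpow_const fun _ => Or.inr hq0.le
      have h2 : (av fun s => W2helper3.BQ.mk v (t - s) * ‖g v s‖) ≤
          av fun s => (lam * W2helper3.BQ.mk v (t - s) +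
            lam ^ (1 - q) * (K * Real.exp (-(v / 4))) * ‖g v s‖ ^ q) := by
        apply av_mono (hcm.mul (hgv v).norm)
          ((continuous_const.mul hcm).add (continuous_const.mul hcq))
        intro s
        show W2helper3.BQ.mk v (t - s) * ‖g v s‖ ≤ lam * W2helper3.BQ.mk v (t - s) +
            lam ^ (1 - q) * (K * Real.exp (-(v / 4))) * ‖g v s‖ ^ q
        have h3 := young q ‖g v s‖ lam hq (norm_nonneg _) hlam0
        have h4 := mk_nonneg v (t - s)
        have h5 := mk_le v (t - s) ε hε0 hε1 (le_of_lt hv)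
        have h6 : Real.exp (-(v / 2)) ≤ Real.exp (-(v / 4)) := by
          apply Real.exp_le_exp.2
          linarith
        have h7 : W2helper3.BQ.mk v (t - s) ≤ K * Real.exp (-(v / 4)) :=
          h5.trans (mul_le_mul_of_nonneg_left h6 hK0.le)
        have h8 : 0 ≤ lam ^ (1 - q) * ‖g v s‖ ^ q := by positivity
        calc W2helper3.BQ.mk v (t - s) * ‖g v s‖
            ≤ W2helper3.BQ.mk v (t - s) * (lam + lam ^ (1 - q) * ‖g v s‖ ^ q) :=
              mul_le_mul_of_nonneg_left h3 h4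
          _ = lam * W2helper3.BQ.mk v (t - s) +
              W2helper3.BQ.mk v (t - s) * (lam ^ (1 - q) * ‖g v s‖ ^ q) := by ring
          _ ≤ lam * W2helper3.BQ.mk v (t - s) +
              K * Real.exp (-(v / 4)) * (lam ^ (1 - q) * ‖g v s‖ ^ q) := by
              have := mul_le_mul_of_nonneg_right h7 h8
              linarith
          _ = _ := by ring
      have e1 : (av fun s => (lam * W2helper3.BQ.mk v (t - s) +
            lam ^ (1 - q) * (K * Real.exp (-(v / 4))) * ‖g v s‖ ^ q)) =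
          lam * (av fun s => W2helper3.BQ.mk v (t - s)) +
            lam ^ (1 - q) * (K * Real.exp (-(v / 4))) * Q v := by
        have e2 := av_add (f := fun s => lam * W2helper3.BQ.mk v (t - s))
          (g := fun s => lam ^ (1 - q) * (K * Real.exp (-(v / 4))) * ‖g v s‖ ^ q)
          (continuous_const.mul hcm) (continuous_const.mul hcq)
        rw [av_const_mul lam, av_const_mul (lam ^ (1 - q) * (K * Real.exp (-(v / 4))))] at e2
        exact e2
      rw [e1] at h2
      calc ‖G v‖ ≤ C₁ * av fun s => W2helper3.BQ.mk v (t - s) * ‖g v s‖ := h1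
        _ ≤ C₁ * (lam * (av fun s => W2helper3.BQ.mk v (t - s)) +
            lam ^ (1 - q) * (K * Real.exp (-(v / 4))) * Q v) :=
            mul_le_mul_of_nonneg_left h2 (by linarith)
        _ = _ := by ring
    have hi1 : IntegrableOn (fun v : ℝ => C₁ * lam * (av fun s => W2helper3.BQ.mk v (t - s)))
        (Ioi ε) := hmi.const_mul _
    have hi2 : IntegrableOn (fun v => C₁ * lam ^ (1 - q) * K * (Real.exp (-(v / 4)) * Q v))
        (Ioi ε) := (hHi.const_mul _).integrableOn
    have h1 := setIntegral_mono_on hGi.integrableOn (hi1.add hi2) measurableSet_Ioi hpt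
    refine h1.trans ?_
    have h2 : ∫ v in Ioi ε, ((fun v : ℝ => C₁ * lam * (av fun s => W2helper3.BQ.mk v (t - s))) +
        fun v => C₁ * lam ^ (1 - q) * K * (Real.exp (-(v / 4)) * Q v)) v =
        C₁ * lam * (∫ v in Ioi ε, (av fun s => W2helper3.BQ.mk v (t - s))) +
        C₁ * lam ^ (1 - q) * K * ∫ v in Ioi ε, Real.exp (-(v / 4)) * Q v := by
      have e1 := integral_add hi1 hi2
      have e2 : ∫ v in Ioi ε, C₁ * lam ^ (1 - q) * K * (Real.exp (-(v / 4)) * Q v) =
          C₁ * lam ^ (1 - q) * K * ∫ v in Ioi ε, Real.exp (-(v / 4)) * Q v :=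
        integral_const_mul _ _
      have e3 : ∫ v in Ioi ε, C₁ * lam * (av fun s => W2helper3.BQ.mk v (t - s)) =
          C₁ * lam * ∫ v in Ioi ε, (av fun s => W2helper3.BQ.mk v (t - s)) :=
        integral_const_mul _ _
      rw [e2, e3] at e1
      exact e1
    rw [h2]
    have h3 := hsub (Ioi ε) measurableSet_Ioi (fun v hv => hε0.trans hv)
    have h4 : C₁ * lam ^ (1 - q) * K * (∫ v in Ioi ε, Real.exp (-(v / 4)) * Q v) ≤
        C₁ * lam ^ (1 - q) * K * N' := mul_le_mul_of_nonneg_left h3 (by positivity)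
    have h5 : C₁ * lam ^ (1 - q) * K * N' = C₁ * lam := by
      calc C₁ * lam ^ (1 - q) * K * N' = C₁ * (lam ^ (1 - q) * (K * N')) := by ring
        _ = C₁ * lam := by rw [hlam2]
    have h6 : C₁ * lam * (∫ v in Ioi ε, (av fun s => W2helper3.BQ.mk v (t - s))) ≤
        C₁ * lam * (4 + Real.log (1 / ε)) := mul_le_mul_of_nonneg_left hm (by positivity)
    have h7 : Real.log (1 / ε) ≤ (n + 1) * q := by
      rw [hε, one_div_one_div]
      exact hlogE'
    have h8 : 4 + Real.log (1 / ε) + 1 ≤ (n + 4) * q := by nlinarith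
    have h9 : lam ≤ Real.exp (2 * n + 4) * N' ^ (1 / q) := by
      rw [hlam, Real.mul_rpow hK0.le hN'0.le]
      apply mul_le_mul_of_nonneg_right _ (by positivity)
      rw [Real.rpow_def_of_pos hK0]
      apply Real.exp_le_exp.2
      rw [mul_one_div, div_le_iff₀ hq0, hKE, Real.log_pow, Real.log_mul (by norm_num) hE0.ne']
      have h10 : Real.log 4 = 2 * Real.log 2 := by
        rw [show (4 : ℝ) = 2 ^ 2 by norm_num, Real.log_pow]; norm_num
      have h11 : Real.log 2 < 1 := by
        have := Real.log_two_lt_d9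
        linarith
      push_cast
      nlinarith
    calc C₁ * lam * (∫ v in Ioi ε, (av fun s => W2helper3.BQ.mk v (t - s))) +
        C₁ * lam ^ (1 - q) * K * ∫ v in Ioi ε, Real.exp (-(v / 4)) * Q v
        ≤ C₁ * lam * (4 + Real.log (1 / ε)) + C₁ * lam := by linarith
      _ = C₁ * lam * (4 + Real.log (1 / ε) + 1) := by ring
      _ ≤ C₁ * lam * ((n + 4) * q) := mul_le_mul_of_nonneg_left h8 (by positivity)
      _ = C₁ * (n + 4) * q * lam := by ring
      _ ≤ C₁ * (n + 4) * q * (Real.exp (2 * n + 4) * N' ^ (1 / q)) :=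
        mul_le_mul_of_nonneg_left h9 (by positivity)
      _ = _ := by ring
  have hsplit : ∫ v in Ioi (0 : ℝ), ‖G v‖ = (∫ v in Ioc 0 ε, ‖G v‖) + ∫ v in Ioi ε, ‖G v‖ := by
    rw [← Ioc_union_Ioi_eq_Ioi hε0.le]
    exact setIntegral_union (by
      rw [Set.disjoint_left]
      intro x hx hx2
      exact absurd hx.2 (not_le.2 hx2)) measurableSet_Ioi hGi.integrableOn hGi.integrableOn
  rw [hsplit]
  have hN1 : 0 < N' ^ (1 / q) := by positivity
  have hx : 3 * C₀ * Real.exp (n + 1) * N' ^ (1 / q) ≤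
      3 * C₀ * Real.exp (n + 1) * N' ^ (1 / q) * q := by
    have : 0 < 3 * C₀ * Real.exp (n + 1) * N' ^ (1 / q) := by positivity
    nlinarith
  calc _ ≤ 3 * C₀ * Real.exp (n + 1) * N' ^ (1 / q) +
      C₁ * (n + 4) * Real.exp (2 * n + 4) * q * N' ^ (1 / q) := add_le_add hPA hPB
    _ ≤ 3 * C₀ * Real.exp (n + 1) * N' ^ (1 / q) * q +
      C₁ * (n + 4) * Real.exp (2 * n + 4) * q * N' ^ (1 / q) := by linarith
    _ = _ := by ring

theorem p_KC : P_KC := by
  intro hKAP hKC1 hKB hMASS n hn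
  obtain ⟨C₀, hC₀, hkap⟩ := hKAP n hn
  obtain ⟨C₁, hC₁, hkc1⟩ := hKC1 hKAP hKB n hn
  refine ⟨3 * C₀ * Real.exp (n + 1) + C₁ * (n + 4) * Real.exp (2 * n + 4), ?_, ?_⟩
  · have h1 : 1 ≤ Real.exp (n + 1) := Real.one_le_exp (by positivity)
    have h2 : 0 ≤ C₁ * (n + 4) * Real.exp (2 * n + 4) := by positivity
    nlinarith
  intro q L hq hL w g R hw hw1 hg hgR hgL t
  have hq0 : 0 < q := by linarith
  set G : ℝ → ℂ := fun v => ∑ l ∈ Finset.Icc 1 L, Complex.exp ((l : ℂ) * t * Complex.I) *
    (((kap n l v : ℝ) : ℂ) * avc (fun s => Complex.exp (-((l : ℂ) * s * Complex.I)) * g v s)) with hG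
  have hgv : ∀ v, Continuous (g v) := fun v => by
    have : g v = (Function.uncurry g) ∘ (fun s => (v, s)) := rfl
    rw [this]
    exact hg.comp (by fun_prop)
  have hcoef : ∀ l : ℕ, Continuous fun v =>
      avc (fun s => Complex.exp (-((l : ℂ) * s * Complex.I)) * g v s) := by
    intro l
    apply continuous_avc
    have : (Function.uncurry fun v s => Complex.exp (-((l : ℂ) * (s : ℝ) * Complex.I)) * g v s) =
        fun x : ℝ × ℝ => Complex.exp (-((l : ℂ) * (x.2 : ℝ) * Complex.I)) * Function.uncurry g x := by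
      funext x
      rfl
    rw [this]
    exact (by fun_prop : Continuous fun x : ℝ × ℝ =>
      Complex.exp (-((l : ℂ) * (x.2 : ℝ) * Complex.I))).mul hg
  have hcoefR : ∀ (l : ℕ) (v : ℝ), R ≤ |v| →
      avc (fun s => Complex.exp (-((l : ℂ) * s * Complex.I)) * g v s) = 0 := by
    intro l v hv
    simp only [hgR v hv, mul_zero]
    exact avc_zero
  have hGc : Continuous G := by
    rw [hG]
    apply continuous_finsetSum
    intro l _
    exact continuous_const.mul ((Complex.continuous_ofReal.comp (continuous_kap n l)).mul (hcoef l))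
  have hGR : ∀ v, R ≤ |v| → G v = 0 := by
    intro v hv
    rw [hG]
    apply Finset.sum_eq_zero
    intro l _
    rw [hcoefR l v hv]
    simp
  -- interchange
  have hint : ∑ l ∈ Finset.Icc 1 L, Complex.exp ((l : ℂ) * t * Complex.I) *
    ∫ v in Ioi (0 : ℝ), ((w v * kap n l v : ℝ) : ℂ) *
      avc (fun s => Complex.exp (-((l : ℂ) * s * Complex.I)) * g v s) =
      ∫ v in Ioi (0 : ℝ), (w v : ℂ) * G v := by
    have h1 : ∀ v, (w v : ℂ) * G v = ∑ l ∈ Finset.Icc 1 L, Complex.exp ((l : ℂ) * t * Complex.I) *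
        (((w v * kap n l v : ℝ) : ℂ) *
      avc (fun s => Complex.exp (-((l : ℂ) * s * Complex.I)) * g v s)) := by
      intro v
      rw [hG]
      simp only
      rw [Finset.mul_sum]
      apply Finset.sum_congr rfl
      intro l _
      push_cast
      ring
    simp only [h1]
    rw [integral_finsetSum]
    · apply Finset.sum_congr rfl
      intro l _
      rw [integral_const_mul]
    · intro l _
      apply Integrable.integrableOn
      apply integrable_of_supp _ R
      · intro v hv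
        rw [hcoefR l v hv]
        simp
      · exact continuous_const.mul ((Complex.continuous_ofReal.comp
          (hw.mul (continuous_kap n l))).mul (hcoef l))
  rw [hint]
  have hGi : Integrable fun v => ‖G v‖ := (integrable_of_supp hGc R hGR).norm
  have hle : ‖∫ v in Ioi (0 : ℝ), (w v : ℂ) * G v‖ ≤ ∫ v in Ioi (0 : ℝ), ‖G v‖ := by
    refine (norm_integral_le_integral_norm _).trans ?_
    apply setIntegral_mono_on _ hGi.integrableOn measurableSet_Ioi
    · intro v hv
      rw [norm_mul, Complex.norm_real, Real.norm_eq_abs]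
      have := mul_le_mul_of_nonneg_right (hw1 v hv) (norm_nonneg (G v))
      linarith
    · apply Integrable.integrableOn
      apply Integrable.norm
      apply integrable_of_supp _ R
      · intro v hv
        rw [hGR v hv, mul_zero]
      · exact (Complex.continuous_ofReal.comp hw).mul hGc
  refine hle.trans ?_
  -- the estimates
  have hA : ∀ v, 0 < v → ‖G v‖ ≤ C₀ * ((L : ℝ) + 1) ^ (n + 1) * av fun s => ‖g v s‖ := by
    intro v hv
    have hav : 0 ≤ av fun s => ‖g v s‖ := av_nonneg fun s => norm_nonneg _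
    have hterm : ∀ l ∈ Finset.Icc 1 L, ‖Complex.exp ((l : ℂ) * t * Complex.I) *
        (((kap n l v : ℝ) : ℂ) * avc (fun s => Complex.exp (-((l : ℂ) * s * Complex.I)) * g v s))‖ ≤
        C₀ * ((L : ℝ) + 1) ^ n * av fun s => ‖g v s‖ := by
      intro l hl
      have hlL : (l : ℝ) ≤ L := by
        exact_mod_cast (Finset.mem_Icc.1 hl).2
      have e1 : ‖Complex.exp ((l : ℂ) * t * Complex.I)‖ = 1 := by
        rw [Complex.norm_exp]
        simp
      have e2 : ‖avc (fun s => Complex.exp (-((l : ℂ) * s * Complex.I)) * g v s)‖ ≤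
          av fun s => ‖g v s‖ := by
        refine (norm_avc_le _).trans (le_of_eq ?_)
        congr 1
        funext s
        rw [norm_mul]
        have : ‖Complex.exp (-((l : ℂ) * s * Complex.I))‖ = 1 := by
          rw [Complex.norm_exp]
          simp
        rw [this, one_mul]
      have e3 : ‖((kap n l v : ℝ) : ℂ)‖ ≤ C₀ * ((L : ℝ) + 1) ^ n := by
        rw [Complex.norm_real, Real.norm_eq_abs]
        refine (hkap l v hv.le).trans ?_
        have h1 : Real.exp (-((l : ℝ) / 2 * v)) ≤ 1 := by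
          rw [Real.exp_le_one_iff]
          have : 0 ≤ (l : ℝ) / 2 * v := by positivity
          linarith
        have h2 : ((l : ℝ) + 1) ^ n ≤ ((L : ℝ) + 1) ^ n :=
          pow_le_pow_left₀ (by positivity) (by linarith) n
        calc C₀ * ((l : ℝ) + 1) ^ n * Real.exp (-((l : ℝ) / 2 * v))
            ≤ C₀ * ((l : ℝ) + 1) ^ n * 1 := mul_le_mul_of_nonneg_left h1 (by positivity)
          _ ≤ C₀ * ((L : ℝ) + 1) ^ n := by
            rw [mul_one]
            exact mul_le_mul_of_nonneg_left h2 (by positivity)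
      rw [norm_mul, norm_mul, e1, one_mul]
      exact mul_le_mul e3 e2 (norm_nonneg _) (by positivity)
    rw [hG]
    refine (norm_sum_le_of_le _ hterm).trans ?_
    rw [Finset.sum_const, Nat.card_Icc, nsmul_eq_mul]
    have h1 : ((L + 1 - 1 : ℕ) : ℝ) ≤ (L : ℝ) + 1 := by
      simp
    calc ((L + 1 - 1 : ℕ) : ℝ) * (C₀ * ((L : ℝ) + 1) ^ n * av fun s => ‖g v s‖)
        ≤ ((L : ℝ) + 1) * (C₀ * ((L : ℝ) + 1) ^ n * av fun s => ‖g v s‖) :=
          mul_le_mul_of_nonneg_right h1 (by positivity)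
      _ = _ := by ring
  have hB : ∀ v, 0 < v → ‖G v‖ ≤ C₁ * av fun s => W2helper3.BQ.mk v (t - s) * ‖g v s‖ := by
    intro v hv
    exact hkc1 v L (g v) hv (hgv v) (fun l hl => hgL v l hl) t
  set N : ℝ := ∫ v in Ioi (0 : ℝ), Real.exp (-(v / 4)) * (av fun s => ‖g v s‖ ^ q) with hN
  have hN0 : 0 ≤ N := by
    rw [hN]
    apply integral_nonneg
    intro v
    exact mul_nonneg (Real.exp_pos _).le (av_nonneg fun s => by positivity)
  set CC : ℝ := 3 * C₀ * Real.exp (n + 1) + C₁ * (n + 4) * Real.exp (2 * n + 4) with hCC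
  have hmain : ∀ N' : ℝ, N < N' → ∫ v in Ioi (0 : ℝ), ‖G v‖ ≤ CC * q * N' ^ (1 / q) := by
    intro N' hN'
    exact core n C₀ C₁ q L t hC₀ hC₁ hq hL hMASS g G R hGc hg hgR hGR hA hB N' (by linarith) hN'.le
  have hcont : ContinuousWithinAt (fun x : ℝ => CC * q * x ^ (1 / q)) (Ioi N) N := by
    apply ContinuousAt.continuousWithinAt
    apply ContinuousAt.mul continuousAt_const
    exact Real.continuousAt_rpow_const _ _ (Or.inr (by positivity))
  exact ge_of_tendsto hcont (by
    filter_upwards [self_mem_nhdsWithin] with x hx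
    exact hmain x hx)

end Pool.Agent.W2helper35.BQ
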