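import Pool.Agent.W2helper3.BQ.Stm3
import Mathlib.Analysis.Complex.Poisson

/-! BQ3 piece MASS -/

set_option autoImplicit false

open MeasureTheory Set Filter Topology
open scoped BigOperators

namespace Pool.Agent.W2helper35.BQ

open Pool.Agent.W2helper3.BQ

/-- the average of the Poisson kernel -/
theorem poisson_one (w : ℂ) (hw : ‖w‖ < 1) :
    (2 * Real.pi)⁻¹ * ∫ θ in (0 : ℝ)..(2 * Real.pi),
      (1 - ‖w‖ ^ 2) / ‖circleMap 0 1 θ - w‖ ^ 2 = 1 := by
  have h := DiffContOnCl.circleAverage_poissonKernel_smul' (f := fun _ : ℂ => (1 : ℂ)) (R := 1)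
    (w := w) (c := 0) diffContOnCl_const (by simpa using hw)
  rw [Real.circleAverage_def] at h
  have h2 : ∀ θ : ℝ, (((‖circleMap 0 1 θ - 0‖ ^ 2 - ‖w - 0‖ ^ 2) /
      ‖(circleMap 0 1 θ - 0) - (w - 0)‖ ^ 2) • (1 : ℂ)) =
      (((1 - ‖w‖ ^ 2) / ‖circleMap 0 1 θ - w‖ ^ 2 : ℝ) : ℂ) := by
    intro θ
    simp [norm_circleMap_zero]
  simp only [h2] at h
  rw [intervalIntegral.integral_ofReal] at h
  rw [Complex.real_smul, ← Complex.ofReal_mul] at h
  exact_mod_cast h

theorem norm_eq (v t s : ℝ) :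
    ‖1 - Complex.exp (-(v / 2 : ℝ) + ((t - s : ℝ) : ℂ) * Complex.I)‖ =
      ‖circleMap 0 1 s - Complex.exp (-(v / 2 : ℝ) + (t : ℂ) * Complex.I)‖ := by
  have h : circleMap 0 1 s - Complex.exp (-(v / 2 : ℝ) + (t : ℂ) * Complex.I) =
      Complex.exp ((s : ℂ) * Complex.I) *
        (1 - Complex.exp (-(v / 2 : ℝ) + ((t - s : ℝ) : ℂ) * Complex.I)) := by
    rw [mul_sub, mul_one, ← Complex.exp_add]
    simp only [circleMap, zero_add, Complex.ofReal_one, one_mul]
    congr 2
    push_cast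
    ring
  rw [h, norm_mul, Complex.norm_exp_ofReal_mul_I, one_mul]

theorem norm_w (v t : ℝ) :
    ‖Complex.exp (-(v / 2 : ℝ) + (t : ℂ) * Complex.I)‖ = Real.exp (-(v / 2)) := by
  rw [Complex.norm_exp]
  congr 1
  simp

/-- the average of the majorant -/
theorem av_mk (v t : ℝ) (hv : 0 < v) :
    (av fun s => mk v (t - s)) = Real.exp (-(v / 2)) / (1 - Real.exp (-(v / 2)) ^ 2) := by
  set r := Real.exp (-(v / 2)) with hr
  have hr0 : 0 < r := Real.exp_pos _
  have hr1 : r < 1 := by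
    rw [hr, Real.exp_lt_one_iff]
    linarith
  have hr2 : 0 < 1 - r ^ 2 := by nlinarith
  have h := poisson_one (Complex.exp (-(v / 2 : ℝ) + (t : ℂ) * Complex.I)) (by rw [norm_w]; exact hr1)
  rw [norm_w, ← hr] at h
  have h3 : ∀ s : ℝ, mk v (t - s) = r / (1 - r ^ 2) * ((1 - r ^ 2) /
      ‖circleMap 0 1 s - Complex.exp (-(v / 2 : ℝ) + (t : ℂ) * Complex.I)‖ ^ 2) := by
    intro s
    unfold W2helper3.BQ.mk
    rw [norm_eq, ← hr]
    field_simp
  unfold av
  simp only [h3]
  rw [intervalIntegral.integral_const_mul]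
  rw [one_div, mul_left_comm, h, mul_one]

/-- the antiderivative -/
theorem hasDerivAt_prim (v : ℝ) (hv : 0 < v) :
    HasDerivAt (fun v => Real.log (1 - Real.exp (-(v / 2))) - Real.log (1 + Real.exp (-(v / 2))))
      (Real.exp (-(v / 2)) / (1 - Real.exp (-(v / 2)) ^ 2)) v := by
  set r := Real.exp (-(v / 2)) with hr
  have hr0 : 0 < r := Real.exp_pos _
  have hr1 : r < 1 := by
    rw [hr, Real.exp_lt_one_iff]
    linarith
  have h1 : HasDerivAt (fun v : ℝ => Real.exp (-(v / 2))) (r * (-(1 / 2))) v := by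
    have : HasDerivAt (fun v : ℝ => -(v / 2)) (-(1 / 2)) v := by
      exact ((hasDerivAt_id v).div_const 2).neg
    exact this.exp
  have h2 := (h1.const_sub 1).log (by rw [← hr]; linarith)
  have h3 := (h1.const_add 1).log (by rw [← hr]; linarith)
  refine (h2.sub h3).congr_deriv ?_
  rw [← hr]
  have ha : (1 - r) ≠ 0 := by linarith
  have hb : (1 + r) ≠ 0 := by linarith
  have hc : (1 - r ^ 2) ≠ 0 := by nlinarith
  field_simp
  ring

theorem p_MASS : P_MASS := by
  intro ε t hε hε1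
  have hT : Tendsto (fun v : ℝ => Real.log (1 - Real.exp (-(v / 2))) -
      Real.log (1 + Real.exp (-(v / 2)))) atTop (𝓝 0) := by
    have h0 : Tendsto (fun v : ℝ => Real.exp (-(v / 2))) atTop (𝓝 0) := by
      apply Real.tendsto_exp_neg_atTop_nhds_zero.comp
      exact tendsto_id.atTop_div_const (by norm_num)
    have h1 : Tendsto (fun v : ℝ => Real.log (1 - Real.exp (-(v / 2)))) atTop (𝓝 (Real.log (1 - 0))) :=
      (tendsto_const_nhds.sub h0).log (by norm_num)
    have h2 : Tendsto (fun v : ℝ => Real.log (1 + Real.exp (-(v / 2)))) atTop (𝓝 (Real.log (1 + 0))) :=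
      (tendsto_const_nhds.add h0).log (by norm_num)
    simpa using h1.sub h2
  have hpos : ∀ v ∈ Ioi ε, 0 ≤ Real.exp (-(v / 2)) / (1 - Real.exp (-(v / 2)) ^ 2) := by
    intro v hv
    have hv0 : 0 < v := hε.trans hv
    have hr1 : Real.exp (-(v / 2)) < 1 := by
      rw [Real.exp_lt_one_iff]; linarith
    have hr0 : 0 < Real.exp (-(v / 2)) := Real.exp_pos _
    exact div_nonneg hr0.le (by nlinarith)
  have hder : ∀ v ∈ Ici ε, HasDerivAt (fun v => Real.log (1 - Real.exp (-(v / 2))) -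
      Real.log (1 + Real.exp (-(v / 2)))) (Real.exp (-(v / 2)) / (1 - Real.exp (-(v / 2)) ^ 2)) v :=
    fun v hv => hasDerivAt_prim v (hε.trans_le hv)
  have hcongr : EqOn (fun v => av fun s => mk v (t - s))
      (fun v => Real.exp (-(v / 2)) / (1 - Real.exp (-(v / 2)) ^ 2)) (Ioi ε) :=
    fun v hv => av_mk v t (hε.trans hv)
  have hint := integrableOn_Ioi_deriv_of_nonneg' hder hpos hT
  refine ⟨hint.congr_fun hcongr.symm measurableSet_Ioi, ?_⟩
  rw [setIntegral_congr_fun measurableSet_Ioi hcongr,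
    integral_Ioi_of_hasDerivAt_of_nonneg' hder hpos hT]
  -- the bound
  set r := Real.exp (-(ε / 2)) with hr
  have hr0 : 0 < r := Real.exp_pos _
  have hr1 : r < 1 := by
    rw [hr, Real.exp_lt_one_iff]; linarith
  have hb : ε / 4 ≤ 1 - r := by
    -- e^{-x} ≤ 1 - x + x^2/2 ... use 1/(1+x)
    have h1 : 1 + ε / 2 ≤ Real.exp (ε / 2) := by
      have := Real.add_one_le_exp (ε / 2)
      linarith
    have h2 : r * Real.exp (ε / 2) = 1 := by
      rw [hr, ← Real.exp_add]; simp
    nlinarith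
  have h1 : Real.log (ε / 4) ≤ Real.log (1 - r) := Real.log_le_log (by positivity) hb
  have h2 : Real.log (1 + r) ≤ Real.log 2 := Real.log_le_log (by positivity) (by linarith)
  have h3 : Real.log (ε / 4) = Real.log ε - Real.log 4 := Real.log_div hε.ne' (by norm_num)
  have h4 : Real.log 4 = 2 * Real.log 2 := by
    rw [show (4 : ℝ) = 2 ^ 2 by norm_num, Real.log_pow]; norm_num
  have h5 : Real.log (1 / ε) = - Real.log ε := by
    rw [one_div, Real.log_inv]
  have h6 : Real.log 2 < 1 := by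
    have := Real.log_two_lt_d9
    linarith
  rw [h5]
  linarith

end Pool.Agent.W2helper35.BQ
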